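import Mathlib

set_option autoImplicit false

/-!
# Averaging over the embeddings
-/

namespace Pool.Agent.W5h36.RS

open Finset

lemma golden_of_exp {T : ℝ} (h : Real.exp (-4 * T) + Real.exp (-2 * T) ≤ 1) :
    Real.log ((1 + √5) / 2) / 2 ≤ T := by
  set u : ℝ := Real.exp (-2 * T) with hu
  have hu0 : 0 < u := Real.exp_pos _
  have h4 : Real.exp (-4 * T) = u ^ 2 := by
    rw [hu, ← Real.exp_nat_mul]
    congr 1
    push_cast
    ring
  rw [h4] at h
  have h5 : √5 ^ 2 = 5 := Real.sq_sqrt (by norm_num)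
  have h50 : 0 ≤ √5 := Real.sqrt_nonneg 5
  have hφ : 0 < (1 + √5) / 2 := by positivity
  have h6 : u * ((1 + √5) / 2) ≤ 1 := by
    by_contra hcon
    push Not at hcon
    nlinarith
  have h7 : Real.log (u * ((1 + √5) / 2)) ≤ 0 := Real.log_nonpos (by positivity) h6
  rw [Real.log_mul hu0.ne' hφ.ne', hu, Real.log_exp] at h7
  linarith

theorem avg_bound {ι : Type*} [Fintype ι] [Nonempty ι] (M β E : ι → ℝ) (hM : ∀ i, 1 ≤ M i)
    (hβ : ∀ i, 0 < β i) (hE : ∀ i, 0 < E i)
    (hEM : ∀ i, E i ≤ M i ^ 2 - β i ^ 2 / M i ^ 2) (A : ℝ) (hA : 1 ≤ A)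
    (h1 : 1 ≤ (∏ i, E i) * A ^ 2) (h2 : 1 ≤ (∏ i, β i) * A) :
    (Fintype.card ι : ℝ) * (Real.log ((1 + √5) / 2) / 2) ≤ Real.log ((∏ i, M i) * A) := by
  set n : ℝ := (Fintype.card ι : ℝ) with hn
  have hn0 : 0 < n := by
    rw [hn]
    exact_mod_cast Fintype.card_pos
  have hM0 : ∀ i, 0 < M i := fun i => lt_of_lt_of_le one_pos (hM i)
  set q : ι → ℝ := fun i => (β i / M i ^ 2) ^ 2 with hq
  have hq0 : ∀ i, 0 < q i := fun i => by
    have := hβ i
    have := hM0 i
    simp only [hq]
    positivity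
  have hE2 : ∀ i, E i ≤ M i ^ 2 * (1 - q i) := by
    intro i
    refine (hEM i).trans (le_of_eq ?_)
    have := (hM0 i).ne'
    simp only [hq]
    field_simp
  have hq1 : ∀ i, 0 < 1 - q i := by
    intro i
    have h3 : 0 < M i ^ 2 * (1 - q i) := lt_of_lt_of_le (hE i) (hE2 i)
    have h4 : 0 < M i ^ 2 := by
      have := hM0 i
      positivity
    exact (mul_pos_iff_of_pos_left h4).1 h3
  have hw : ∑ _i : ι, (1 / n) = 1 := by
    rw [Finset.sum_const, Finset.card_univ, nsmul_eq_mul, ← hn]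
    field_simp
  have jensen : ∀ f : ι → ℝ, (∀ i, 0 < f i) →
      Real.exp ((∑ i, Real.log (f i)) / n) ≤ (∑ i, f i) / n := by
    intro f hf
    have h3 := convexOn_exp.map_sum_le (t := Finset.univ) (w := fun _ : ι => 1 / n)
      (p := fun i => Real.log (f i)) (fun i _ => by positivity) hw (fun i _ => Set.mem_univ _)
    simp only [smul_eq_mul, Real.exp_log (hf _), ← Finset.mul_sum] at h3
    rw [div_eq_mul_one_div, mul_comm, div_eq_mul_one_div (∑ i, f i), mul_comm (∑ i, f i)]
    exact h3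
  have hJ : Real.exp ((∑ i, Real.log (q i)) / n) + Real.exp ((∑ i, Real.log (1 - q i)) / n) ≤
      1 := by
    have h3 := jensen q hq0
    have h4 := jensen (fun i => 1 - q i) hq1
    have h5 : (∑ i, q i) / n + (∑ i, (1 - q i)) / n = 1 := by
      rw [← add_div, ← Finset.sum_add_distrib]
      simp only [add_sub_cancel]
      rw [Finset.sum_const, Finset.card_univ, nsmul_eq_mul, ← hn, mul_one, div_self hn0.ne']
    linarith
  set SM : ℝ := ∑ i, Real.log (M i) with hSM
  set Sβ : ℝ := ∑ i, Real.log (β i) with hSβ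
  set SE : ℝ := ∑ i, Real.log (E i) with hSE
  have hlq : ∑ i, Real.log (q i) = 2 * Sβ - 4 * SM := by
    rw [hSβ, hSM, Finset.mul_sum, Finset.mul_sum, ← Finset.sum_sub_distrib]
    refine Finset.sum_congr rfl fun i _ => ?_
    simp only [hq]
    rw [Real.log_pow, Real.log_div (hβ i).ne' (by have := hM0 i; positivity), Real.log_pow]
    push_cast
    ring
  have hl1q : SE - 2 * SM ≤ ∑ i, Real.log (1 - q i) := by
    rw [hSE, hSM, Finset.mul_sum, ← Finset.sum_sub_distrib]
    refine Finset.sum_le_sum fun i _ => ?_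
    have h3 := Real.log_le_log (hE i) (hE2 i)
    rw [Real.log_mul (by have := hM0 i; positivity) (hq1 i).ne', Real.log_pow] at h3
    push_cast at h3
    linarith
  set lA : ℝ := Real.log A with hlA
  have hlA0 : 0 ≤ lA := Real.log_nonneg hA
  have hA0 : 0 < A := by linarith
  have hSE1 : -2 * lA ≤ SE := by
    have h3 := Real.log_nonneg h1
    rw [Real.log_mul (Finset.prod_pos fun i _ => hE i).ne' (by positivity),
      Real.log_prod (fun i _ => (hE i).ne'), Real.log_pow] at h3
    push_cast at h3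
    linarith
  have hSβ1 : -lA ≤ Sβ := by
    have h3 := Real.log_nonneg h2
    rw [Real.log_mul (Finset.prod_pos fun i _ => hβ i).ne' hA0.ne',
      Real.log_prod (fun i _ => (hβ i).ne')] at h3
    linarith
  set T : ℝ := (SM + lA) / n with hT
  have hfin : Real.exp (-4 * T) + Real.exp (-2 * T) ≤ 1 := by
    refine le_trans ?_ hJ
    apply add_le_add
    · apply Real.exp_le_exp.2
      rw [hlq, hT, ← mul_div_assoc]
      apply div_le_div_of_nonneg_right _ hn0.le
      linarith
    · apply Real.exp_le_exp.2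
      rw [hT, ← mul_div_assoc]
      apply div_le_div_of_nonneg_right _ hn0.le
      linarith
  have h3 := golden_of_exp hfin
  rw [hT, le_div_iff₀ hn0] at h3
  rw [Real.log_mul (Finset.prod_pos fun i _ => hM0 i).ne' hA0.ne',
    Real.log_prod (fun i _ => (hM0 i).ne')]
  linarith

end Pool.Agent.W5h36.RS
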