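import Mathlib
import Pool.Agent.H338R2.Smyth2

set_option autoImplicit false

/-!
# The first coefficient at which a complex polynomial is not self-inversive
-/

namespace Pool.Agent.W5h36.RS

open Polynomial
open Pool.Agent.H338R2 (uA uB exists_inner exists_inner' coeff_bound toPS_X_sub_C reverse_prod)

/-- the monic polynomial with the given zeros -/
noncomputable def pol (R : Multiset ℂ) : ℂ[X] := (R.map fun a => X - C a).prod

/-- its Mahler measure -/
noncomputable def mm (R : Multiset ℂ) : ℝ := (R.map fun a => max 1 ‖a‖).prod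

lemma pol_monic (R : Multiset ℂ) : (pol R).Monic :=
  monic_multiset_prod_of_monic _ _ fun a _ => monic_X_sub_C a

lemma pol_natDegree (R : Multiset ℂ) : (pol R).natDegree = Multiset.card R := by
  unfold pol
  rw [natDegree_multiset_prod_X_sub_C_eq_card]

lemma pol_PS (R : Multiset ℂ) : ((pol R : ℂ[X]) : PowerSeries ℂ) = (R.map uB).prod := by
  unfold pol
  induction R using Multiset.induction_on with
  | empty => simp
  | cons a m ih =>
    rw [Multiset.map_cons, Multiset.prod_cons, Multiset.map_cons, Multiset.prod_cons,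
      Polynomial.coe_mul, ih, toPS_X_sub_C]

lemma pol_conj (R : Multiset ℂ) : (pol R).map (starRingEnd ℂ) = pol (R.map (starRingEnd ℂ)) := by
  unfold pol
  rw [Polynomial.map_multiset_prod, Multiset.map_map, Multiset.map_map]
  congr 1
  refine Multiset.map_congr rfl fun a _ => ?_
  simp

lemma rev_PS (R : Multiset ℂ) :
    ((((pol R).map (starRingEnd ℂ)).reverse : ℂ[X]) : PowerSeries ℂ) = (R.map uA).prod := by
  rw [pol_conj]
  unfold pol
  rw [reverse_prod, Multiset.map_map]
  induction R using Multiset.induction_on with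
  | empty => simp
  | cons a m ih =>
    rw [Multiset.map_cons, Multiset.prod_cons, Multiset.map_cons, Multiset.prod_cons,
      Polynomial.coe_mul, ih]
    congr 1
    rw [uA]
    simp

lemma rev_coeff (R : Multiset ℂ) (i : ℕ) (hi : i ≤ Multiset.card R) :
    (((pol R).map (starRingEnd ℂ)).reverse).coeff i =
      (starRingEnd ℂ) ((pol R).coeff (Multiset.card R - i)) := by
  rw [Polynomial.coeff_reverse]
  have hd : ((pol R).map (starRingEnd ℂ)).natDegree = Multiset.card R := by
    rw [(pol_monic R).natDegree_map, pol_natDegree]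
  rw [hd, Polynomial.revAt_le hi, Polynomial.coeff_map]

lemma one_le_mm (R : Multiset ℂ) : 1 ≤ mm R := by
  unfold mm
  induction R using Multiset.induction_on with
  | empty => simp
  | cons a m ih =>
    rw [Multiset.map_cons, Multiset.prod_cons]
    exact one_le_mul_of_one_le_of_one_le (le_max_left _ _) ih

lemma norm_const (R : Multiset ℂ) : ‖(pol R).coeff 0‖ = (R.map fun a => ‖a‖).prod := by
  unfold pol
  induction R using Multiset.induction_on with
  | empty => simp
  | cons a m ih =>
    rw [Multiset.map_cons, Multiset.prod_cons, Polynomial.mul_coeff_zero, norm_mul, ih,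
      Multiset.map_cons, Multiset.prod_cons]
    congr 1
    simp

lemma const_le_mm (R : Multiset ℂ) : ‖(pol R).coeff 0‖ ≤ mm R := by
  rw [norm_const]
  unfold mm
  induction R using Multiset.induction_on with
  | empty => simp
  | cons a m ih =>
    rw [Multiset.map_cons, Multiset.prod_cons, Multiset.map_cons, Multiset.prod_cons]
    apply mul_le_mul (le_max_right _ _) ih
    · apply Multiset.prod_nonneg
      intro x hx
      obtain ⟨a, _, rfl⟩ := Multiset.mem_map.1 hx
      exact norm_nonneg a
    · exact le_trans zero_le_one (le_max_left _ _)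

/-- the bound for the first coefficient at which the polynomial is not self-inversive -/
theorem local_bound (R : Multiset ℂ) (h0 : (pol R).coeff 0 ≠ 0) (m : ℕ) (hm : 1 ≤ m)
    (hmD : m ≤ Multiset.card R)
    (hs : ∀ i, 1 ≤ i → i < m → (pol R).coeff i =
      (pol R).coeff 0 * (starRingEnd ℂ) ((pol R).coeff (Multiset.card R - i))) :
    ‖(pol R).coeff m - (pol R).coeff 0 * (starRingEnd ℂ) ((pol R).coeff (Multiset.card R - m))‖ ≤
      (mm R) ^ 2 - ‖(pol R).coeff 0‖ ^ 2 / (mm R) ^ 2 := by
  classical
  set s := R.filter (fun a => ‖a‖ ≤ 1) with hs'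
  set t := R.filter (fun a => ¬ ‖a‖ ≤ 1) with ht
  have hst : s + t = R := Multiset.filter_add_not _ _
  obtain ⟨F, hF1, hF2⟩ := exists_inner s (fun a ha => (Multiset.mem_filter.1 ha).2)
  obtain ⟨H, hH1, hH2⟩ := exists_inner' t (fun a ha => not_le.1 (Multiset.mem_filter.1 ha).2)
  set p : PowerSeries ℂ := ((pol R : ℂ[X]) : PowerSeries ℂ) with hp
  set r : PowerSeries ℂ := ((((pol R).map (starRingEnd ℂ)).reverse : ℂ[X]) : PowerSeries ℂ) with hr
  set b : ℂ := (pol R).coeff 0 with hb
  set e : ℂ := (pol R).coeff m - b * (starRingEnd ℂ) ((pol R).coeff (Multiset.card R - m)) with he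
  have hid : F * r = H * p := by
    rw [hp, hr, pol_PS, rev_PS, ← hst, Multiset.map_add, Multiset.prod_add, Multiset.map_add,
      Multiset.prod_add, ← mul_assoc, hF1, ← hH1]
    ring
  have hr0 : PowerSeries.constantCoeff r = 1 := by
    rw [hr, Polynomial.constantCoeff_coe, rev_coeff R 0 (Nat.zero_le _), Nat.sub_zero,
      ← pol_natDegree, (pol_monic R).coeff_natDegree, map_one]
  have hrunit : r * r⁻¹ = 1 := PowerSeries.mul_inv_cancel _ (by rw [hr0]; exact one_ne_zero)
  have hdiff : ∀ i, i ≤ Multiset.card R → PowerSeries.coeff i (p - PowerSeries.C b * r) =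
      (pol R).coeff i - b * (starRingEnd ℂ) ((pol R).coeff (Multiset.card R - i)) := by
    intro i hi
    rw [map_sub, PowerSeries.coeff_C_mul, hp, hr, Polynomial.coeff_coe, Polynomial.coeff_coe,
      rev_coeff R i hi]
  have hlow : ∀ i, i < m → PowerSeries.coeff i (p - PowerSeries.C b * r) = 0 := by
    intro i hi
    rw [hdiff i (by omega)]
    rcases Nat.eq_zero_or_pos i with rfl | hi0
    · rw [Nat.sub_zero, ← pol_natDegree, (pol_monic R).coeff_natDegree, map_one, mul_one, sub_self]
    · rw [hs i hi0 hi, sub_self]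
  obtain ⟨w, hw⟩ : PowerSeries.X ^ m ∣ p - PowerSeries.C b * r :=
    PowerSeries.X_pow_dvd_iff.2 hlow
  have hw0 : PowerSeries.constantCoeff w = e := by
    have h1 := hdiff m hmD
    rw [hw, PowerSeries.coeff_X_pow_mul', if_pos le_rfl, Nat.sub_self,
      PowerSeries.coeff_zero_eq_constantCoeff_apply] at h1
    exact h1
  have hΔ : F - PowerSeries.C b * H = PowerSeries.X ^ m * (H * w * r⁻¹) := by
    have h1 : (F - PowerSeries.C b * H) * r = PowerSeries.X ^ m * (H * w) := by
      have h2 : (F - PowerSeries.C b * H) * r = H * (p - PowerSeries.C b * r) := by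
        rw [sub_mul, hid]
        ring
      rw [h2, hw]
      ring
    calc F - PowerSeries.C b * H = (F - PowerSeries.C b * H) * (r * r⁻¹) := by
          rw [hrunit, mul_one]
      _ = ((F - PowerSeries.C b * H) * r) * r⁻¹ := by ring
      _ = _ := by rw [h1]; ring
  have hck : PowerSeries.coeff m F - b * PowerSeries.coeff m H = PowerSeries.coeff 0 H * e := by
    have h1 := congrArg (PowerSeries.coeff m) hΔ
    rw [map_sub, PowerSeries.coeff_C_mul, PowerSeries.coeff_X_pow_mul'] at h1
    rw [h1, if_pos le_rfl, Nat.sub_self]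
    have h2 : PowerSeries.constantCoeff (r⁻¹) = 1 := by
      rw [PowerSeries.constantCoeff_inv, hr0, inv_one]
    rw [PowerSeries.coeff_zero_eq_constantCoeff_apply, map_mul, map_mul, h2, mul_one, hw0,
      PowerSeries.coeff_zero_eq_constantCoeff_apply]
  have hc0 : PowerSeries.coeff 0 F = b * PowerSeries.coeff 0 H := by
    have h1 := congrArg (PowerSeries.coeff 0) hΔ
    rw [map_sub, PowerSeries.coeff_C_mul, PowerSeries.coeff_X_pow_mul', if_neg (by omega)] at h1
    exact sub_eq_zero.1 h1
  have hM : ‖PowerSeries.coeff 0 H‖ * mm R = 1 := by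
    have h1 := congrArg (fun v => ‖PowerSeries.constantCoeff v‖) hH1
    simp only [map_mul, norm_mul] at h1
    have h2 : ∀ m : Multiset ℂ, ‖PowerSeries.constantCoeff (m.map uB).prod‖ =
        (m.map (fun a => ‖a‖)).prod := by
      intro m
      induction m using Multiset.induction_on with
      | empty => simp
      | cons a m ih =>
        rw [Multiset.map_cons, Multiset.prod_cons, map_mul, norm_mul, ih, Multiset.map_cons,
          Multiset.prod_cons]
        congr 1
        simp [uB]
    have h3 : ∀ m : Multiset ℂ, ‖PowerSeries.constantCoeff (m.map uA).prod‖ = 1 := by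
      intro m
      induction m using Multiset.induction_on with
      | empty => simp
      | cons a m ih =>
        rw [Multiset.map_cons, Multiset.prod_cons, map_mul, norm_mul, ih]
        simp [uA]
    rw [h2, h3] at h1
    have h4 : mm R = (t.map (fun a => ‖a‖)).prod := by
      rw [mm, ← hst, Multiset.map_add, Multiset.prod_add]
      have h5 : (s.map (fun a => max 1 ‖a‖)).prod = 1 := by
        apply Multiset.prod_eq_one
        intro x hx
        obtain ⟨a, ha, rfl⟩ := Multiset.mem_map.1 hx
        exact max_eq_left (Multiset.mem_filter.1 ha).2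
      have h6 : t.map (fun a => max 1 ‖a‖) = t.map (fun a => ‖a‖) := by
        apply Multiset.map_congr rfl
        intro a ha
        exact max_eq_right (not_le.1 (Multiset.mem_filter.1 ha).2).le
      rw [h5, h6, one_mul]
    rw [h4, PowerSeries.coeff_zero_eq_constantCoeff_apply]
    exact h1
  have hM1 := one_le_mm R
  have hMpos : 0 < mm R := by linarith
  have he0 : ‖PowerSeries.coeff 0 H‖ = 1 / mm R := by
    field_simp
    exact hM
  have hHne : PowerSeries.coeff 0 H ≠ 0 := by
    intro h
    rw [h, norm_zero, zero_mul] at hM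
    exact zero_ne_one hM
  have hFne : PowerSeries.coeff 0 F ≠ 0 := by
    rw [hc0]
    exact mul_ne_zero h0 hHne
  have b1 := coeff_bound F hF2 m hm hFne
  have b2 := coeff_bound H hH2 m hm hHne
  set β : ℝ := ‖b‖ with hβ
  have hβ0 : 0 ≤ β := norm_nonneg b
  have hβM : β ≤ mm R := const_le_mm R
  rw [hc0, norm_mul, he0] at b1
  rw [he0] at b2
  have b3 : 1 / mm R * ‖e‖ ≤ ‖PowerSeries.coeff m F‖ + β * ‖PowerSeries.coeff m H‖ := by
    have h1 := congrArg (fun v => ‖v‖) hck
    simp only [norm_mul, he0] at h1
    rw [← h1]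
    refine (norm_sub_le _ _).trans ?_
    rw [norm_mul]
  set M : ℝ := mm R with hMdef
  have b4 : 1 / M * ‖e‖ ≤ (1 - (β * (1 / M)) ^ 2) + β * (1 - (1 / M) ^ 2) := by
    refine b3.trans ?_
    have := mul_le_mul_of_nonneg_left b2 hβ0
    linarith
  have b5 : ‖e‖ ≤ M * ((1 - (β * (1 / M)) ^ 2) + β * (1 - (1 / M) ^ 2)) := by
    have := mul_le_mul_of_nonneg_left b4 hMpos.le
    rw [← mul_assoc, mul_one_div_cancel hMpos.ne', one_mul] at this
    exact this
  refine b5.trans ?_
  have e1 : M ^ 2 - β ^ 2 / M ^ 2 - M * ((1 - (β * (1 / M)) ^ 2) + β * (1 - (1 / M) ^ 2)) =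
      (M - β / M) * ((M - 1) * (M - β) / M) := by
    field_simp
    ring
  have e2 : 0 ≤ M - β / M := by
    rw [sub_nonneg, div_le_iff₀ hMpos]
    nlinarith
  have e3 : 0 ≤ (M - 1) * (M - β) / M := by
    apply div_nonneg _ hMpos.le
    exact mul_nonneg (by linarith) (by linarith)
  have := mul_nonneg e2 e3
  linarith

end Pool.Agent.W5h36.RS
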