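import Mathlib
import Pool.Agent.W469.CV.MH
import Pool.Agent.W5h36.RS.Local
import Pool.Agent.W5h36.RS.Avg

set_option autoImplicit false

/-!
# The bound in a number field
-/

namespace Pool.Agent.W5h36.RS

open NumberField Height Module Polynomial Finset
open Pool.Agent.H58P (Qb ht)

variable {N : Type} [Field N] [NumberField N]

lemma prod_emb (G : InfinitePlace N → ℝ) :
    ∏ σ : N →+* ℂ, G (InfinitePlace.mk σ) = ∏ v : InfinitePlace N, G v ^ v.mult := by
  classical
  rw [← Finset.prod_fiberwise (s := (Finset.univ : Finset (N →+* ℂ)))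
    (g := fun σ => InfinitePlace.mk σ)]
  refine Finset.prod_congr rfl fun v _ => ?_
  rw [← InfinitePlace.card_filter_mk_eq, ← Finset.prod_const]
  refine Finset.prod_congr rfl fun σ hσ => ?_
  rw [(Finset.mem_filter.1 hσ).2]

lemma prod_emb_norm (g : ℝ → ℝ) (x : N) :
    ∏ σ : N →+* ℂ, g ‖σ x‖ = ∏ v : InfinitePlace N, g (v x) ^ v.mult := by
  rw [← prod_emb fun v => g (v x)]
  rfl

lemma product_formula {x : N} (hx : x ≠ 0) :
    (∏ σ : N →+* ℂ, ‖σ x‖) * ∏ᶠ w : FinitePlace N, w x = 1 := by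
  rw [prod_emb_norm (fun t => t) x]
  exact NumberField.prod_abs_eq_one hx

lemma height_split {J : Type*} [Fintype J] (y : J → N) :
    ∏ j, mulHeight₁ (y j) = (∏ σ : N →+* ℂ, ∏ j, max 1 ‖σ (y j)‖) *
      ∏ᶠ w : FinitePlace N, ∏ j, max (w (y j)) 1 := by
  simp only [NumberField.mulHeight₁_eq]
  rw [Finset.prod_mul_distrib, Finset.prod_comm]
  congr 1
  · rw [Finset.prod_comm]
    conv_rhs => rw [Finset.prod_comm]
    refine Finset.prod_congr rfl fun j _ => ?_
    rw [prod_emb_norm (fun t => max 1 t) (y j)]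
    refine Finset.prod_congr rfl fun v _ => ?_
    rw [max_comm]
  · refine prod_finprod_comm _ _ fun j _ => ?_
    by_cases h0 : y j = 0
    · have : (fun v : FinitePlace N => max (v (y j)) 1) = fun _ => 1 := by
        funext v
        rw [h0, map_zero]
        exact max_eq_right zero_le_one
      rw [this]
      exact Function.hasFiniteMulSupport_one
    · exact (FinitePlace.hasFiniteMulSupport h0).max Function.hasFiniteMulSupport_one

lemma height_equiv (τ : N ≃+* N) (x : N) : mulHeight₁ (τ x) = mulHeight₁ x := by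
  let φ : N →+* Qb := ((IsAlgClosed.lift : N →ₐ[ℚ] Qb) : N →+* Qb)
  have h1 := Pool.Agent.W469.CV.MH.ht_emb N φ (τ x)
  have h2 := Pool.Agent.W469.CV.MH.ht_emb N (φ.comp (τ : N →+* N)) x
  have h3 : ((φ.comp (τ : N →+* N)) x) = φ (τ x) := rfl
  rw [h3, h1] at h2
  have h4 : (0 : ℝ) < finrank ℚ N := by
    exact_mod_cast Module.finrank_pos (R := ℚ) (M := N)
  have h5 := (div_left_inj' h4.ne').1 h2
  exact Real.log_injOn_pos (mulHeight₁_pos _) (mulHeight₁_pos _) h5

lemma coeff_le_prod {J : Type*} (s : Finset J) (y : J → N) (w : FinitePlace N) (i : ℕ) :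
    w ((∏ j ∈ s, (X - C (y j))).coeff i) ≤ ∏ j ∈ s, max (w (y j)) 1 := by
  classical
  induction s using Finset.induction_on generalizing i with
  | empty =>
    rw [Finset.prod_empty, Finset.prod_empty, coeff_one]
    split_ifs
    · rw [map_one]
    · rw [map_zero]
      exact zero_le_one
  | insert a s ha ih =>
    rw [Finset.prod_insert ha, Finset.prod_insert ha]
    set Q : N[X] := ∏ j ∈ s, (X - C (y j)) with hQ
    have hB : 0 ≤ ∏ j ∈ s, max (w (y j)) 1 :=
      Finset.prod_nonneg fun j _ => le_trans zero_le_one (le_max_right _ _)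
    have hw0 : ∀ z : N, 0 ≤ w z := fun z => apply_nonneg w z
    have h1 : w (y a * Q.coeff i) ≤ max (w (y a)) 1 * ∏ j ∈ s, max (w (y j)) 1 := by
      rw [map_mul]
      exact mul_le_mul (le_max_left _ _) (ih i) (hw0 _) (le_trans zero_le_one (le_max_right _ _))
    rcases i with _ | i
    · rw [sub_mul, coeff_sub, coeff_C_mul, mul_coeff_zero, coeff_X_zero, zero_mul, zero_sub,
        map_neg_eq_map]
      exact h1
    · rw [sub_mul, coeff_sub, coeff_C_mul, coeff_X_mul, sub_eq_add_neg]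
      refine (FinitePlace.add_le w _ _).trans (max_le ?_ ?_)
      · calc w (Q.coeff i) ≤ 1 * ∏ j ∈ s, max (w (y j)) 1 := by
              rw [one_mul]
              exact ih i
          _ ≤ _ := mul_le_mul_of_nonneg_right (le_max_right _ _) hB
      · rw [map_neg_eq_map]
        exact h1

lemma hfs_prod {J : Type*} [Fintype J] (y : J → N) (hy : ∀ j, y j ≠ 0) :
    Function.HasFiniteMulSupport fun w : FinitePlace N => ∏ j, max (w (y j)) 1 :=
  Function.HasFiniteMulSupport.prod
    (fun j => (FinitePlace.hasFiniteMulSupport (hy j)).max Function.hasFiniteMulSupport_one)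
    Finset.univ

lemma one_le_fin {J : Type*} [Fintype J] (y : J → N) (hy : ∀ j, y j ≠ 0) :
    1 ≤ ∏ᶠ w : FinitePlace N, ∏ j, max (w (y j)) 1 := by
  calc (1 : ℝ) = ∏ᶠ _w : FinitePlace N, (1 : ℝ) := finprod_one.symm
    _ ≤ _ := finprod_le_finprod Function.hasFiniteMulSupport_one (fun _ => zero_le_one)
      (hfs_prod y hy) fun w => Finset.one_le_prod fun j _ => le_max_right _ _

/-- the first coefficient at which all conjugates of the polynomial are not self-inversive -/
theorem nf_bound {J : Type} [Fintype J] (y : J → N) (hy : ∀ j, y j ≠ 0) (τ : N ≃+* N) (e : N)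
    (he : e ≠ 0) (m : ℕ) (hm : 1 ≤ m) (hmJ : m ≤ Fintype.card J)
    (hs : ∀ σ : N →+* ℂ, ∀ i, 1 ≤ i → i < m →
      σ ((∏ j, (X - C (y j))).coeff i) = σ ((∏ j, (X - C (y j))).coeff 0) *
        (starRingEnd ℂ) (σ ((∏ j, (X - C (y j))).coeff (Fintype.card J - i))))
    (hprod : ∏ σ : N →+* ℂ, ‖σ ((∏ j, (X - C (y j))).coeff m) -
      σ ((∏ j, (X - C (y j))).coeff 0) *
        (starRingEnd ℂ) (σ ((∏ j, (X - C (y j))).coeff (Fintype.card J - m)))‖ =
        ∏ σ : N →+* ℂ, ‖σ e‖)
    (hfin : ∀ w : FinitePlace N, w e ≤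
      (∏ j, max (w (y j)) 1) * ∏ j, max (w (τ (y j))) 1) :
    (finrank ℚ N : ℝ) * (Real.log ((1 + √5) / 2) / 2) ≤ ∑ j, Real.log (mulHeight₁ (y j)) := by
  classical
  set P : N[X] := ∏ j, (X - C (y j)) with hP
  set A : ℝ := ∏ᶠ w : FinitePlace N, ∏ j, max (w (y j)) 1 with hA
  set A' : ℝ := ∏ᶠ w : FinitePlace N, ∏ j, max (w (τ (y j))) 1 with hA'
  have hA1 : 1 ≤ A := one_le_fin y hy
  have hτy : ∀ j, τ (y j) ≠ 0 := fun j => (map_ne_zero_iff τ τ.injective).2 (hy j)
  have hP0 : P.coeff 0 ≠ 0 := by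
    rw [hP, Polynomial.coeff_zero_eq_eval_zero, eval_prod,
      Finset.prod_ne_zero_iff]
    intro j _
    simpa using hy j
  -- the multiset of the conjugate zeros
  set R : (N →+* ℂ) → Multiset ℂ := fun σ => (Finset.univ : Finset J).val.map fun j => σ (y j)
    with hR
  have hpol : ∀ σ : N →+* ℂ, pol (R σ) = P.map σ := by
    intro σ
    rw [hP, Polynomial.map_prod, pol, hR, Multiset.map_map]
    show Multiset.prod _ = Multiset.prod _
    congr 1
    refine Multiset.map_congr rfl fun j _ => ?_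
    simp
  have hcoeff : ∀ (σ : N →+* ℂ) (i : ℕ), (pol (R σ)).coeff i = σ (P.coeff i) := by
    intro σ i
    rw [hpol, coeff_map]
  have hcard : ∀ σ : N →+* ℂ, Multiset.card (R σ) = Fintype.card J := by
    intro σ
    rw [hR, Multiset.card_map]
    rfl
  have hmm : ∀ σ : N →+* ℂ, mm (R σ) = ∏ j, max 1 ‖σ (y j)‖ := by
    intro σ
    rw [mm, hR, Multiset.map_map]
    rfl
  have hnorm0 : ∀ (σ : N →+* ℂ) {x : N}, x ≠ 0 → 0 < ‖σ x‖ := fun σ x hx =>
    norm_pos_iff.2 ((map_ne_zero_iff σ σ.injective).2 hx)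
  have hAA : A' = A := by
    have h1 := height_split y
    have h2 := height_split (fun j => τ (y j))
    have h3 : ∏ j, mulHeight₁ (τ (y j)) = ∏ j, mulHeight₁ (y j) :=
      Finset.prod_congr rfl fun j _ => height_equiv τ (y j)
    have h4 : (∏ σ : N →+* ℂ, ∏ j, max 1 ‖σ (τ (y j))‖) =
        ∏ σ : N →+* ℂ, ∏ j, max 1 ‖σ (y j)‖ := by
      let E : (N →+* ℂ) ≃ (N →+* ℂ) :=
        { toFun := fun σ => σ.comp (τ : N →+* N)
          invFun := fun σ => σ.comp (τ.symm : N →+* N)
          left_inv := fun σ => by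
            ext x
            simp
          right_inv := fun σ => by
            ext x
            simp }
      exact Equiv.prod_comp E fun σ => ∏ j, max 1 ‖σ (y j)‖
    rw [h3, h4, h1] at h2
    have h5 : (∏ σ : N →+* ℂ, ∏ j, max 1 ‖σ (y j)‖) ≠ 0 :=
      (Finset.prod_pos fun σ _ => Finset.prod_pos fun j _ =>
        lt_of_lt_of_le one_pos (le_max_left _ _)).ne'
    exact (mul_left_cancel₀ h5 h2).symm
  have hfinA : ∏ᶠ w : FinitePlace N, w e ≤ A ^ 2 := by
    have h1 : ∏ᶠ w : FinitePlace N, ((∏ j, max (w (y j)) 1) * ∏ j, max (w (τ (y j))) 1) = A ^ 2 := by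
      rw [finprod_mul_distrib (hfs_prod y hy) (hfs_prod _ hτy), ← hA, ← hA', hAA, sq]
    rw [← h1]
    exact finprod_le_finprod (FinitePlace.hasFiniteMulSupport he) (fun w => apply_nonneg w e)
      ((hfs_prod y hy).mul (hfs_prod _ hτy)) hfin
  have hfin0 : ∏ᶠ w : FinitePlace N, w (P.coeff 0) ≤ A :=
    finprod_le_finprod (FinitePlace.hasFiniteMulSupport hP0) (fun w => apply_nonneg w _)
      (hfs_prod y hy) fun w => coeff_le_prod _ y w 0
  have hE1 : 1 ≤ (∏ σ : N →+* ℂ, ‖σ e‖) * A ^ 2 := by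
    rw [← product_formula he]
    exact mul_le_mul_of_nonneg_left hfinA (Finset.prod_nonneg fun σ _ => norm_nonneg _)
  have hB1 : 1 ≤ (∏ σ : N →+* ℂ, ‖σ (P.coeff 0)‖) * A := by
    rw [← product_formula hP0]
    exact mul_le_mul_of_nonneg_left hfin0 (Finset.prod_nonneg fun σ _ => norm_nonneg _)
  have hEpos : ∀ σ : N →+* ℂ, 0 < ‖σ (P.coeff m) - σ (P.coeff 0) *
      (starRingEnd ℂ) (σ (P.coeff (Fintype.card J - m)))‖ := by
    have h1 : ∏ σ : N →+* ℂ, ‖σ (P.coeff m) - σ (P.coeff 0) *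
        (starRingEnd ℂ) (σ (P.coeff (Fintype.card J - m)))‖ ≠ 0 := by
      rw [hprod]
      exact (Finset.prod_pos fun σ _ => hnorm0 σ he).ne'
    intro σ
    rw [Finset.prod_ne_zero_iff] at h1
    exact lt_of_le_of_ne (norm_nonneg _) (Ne.symm (h1 σ (Finset.mem_univ σ)))
  have key := avg_bound (ι := N →+* ℂ) (fun σ => ∏ j, max 1 ‖σ (y j)‖)
    (fun σ => ‖σ (P.coeff 0)‖) (fun σ => ‖σ (P.coeff m) - σ (P.coeff 0) *
      (starRingEnd ℂ) (σ (P.coeff (Fintype.card J - m)))‖)
    (fun σ => Finset.one_le_prod fun j _ => le_max_left _ _)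
    (fun σ => hnorm0 σ hP0) hEpos
    (fun σ => by
      have h1 := local_bound (R σ) (by rw [hcoeff]; exact (map_ne_zero_iff σ σ.injective).2 hP0)
        m hm (by rw [hcard]; exact hmJ) (by
          intro i hi1 hi2
          rw [hcoeff, hcoeff, hcoeff, hcard]
          exact hs σ i hi1 hi2)
      rw [hcoeff, hcoeff, hcoeff, hcard, hmm] at h1
      exact h1)
    A hA1 (by rw [hprod]; exact hE1) hB1
  rw [← height_split y, Real.log_prod (fun j _ => (mulHeight₁_pos _).ne')] at key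
  have hc : Fintype.card (N →+* ℂ) = finrank ℚ N := by
    rw [← NumberField.Embeddings.card N ℂ]
  rw [hc] at key
  exact key

end Pool.Agent.W5h36.RS
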