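import Mathlib
import Pool.Agent.W5h36.RS.Places

set_option autoImplicit false

/-!
# The relative bound
-/

namespace Pool.Agent.W5h36.RS

open NumberField Height Module Polynomial Finset IntermediateField

/-- complex conjugation maps `K` to itself and commutes with all embeddings of `K` in `ℂ` -/
def Kroneckerian (K : IntermediateField ℚ ℂ) : Prop :=
  Algebra.IsAlgebraic ℚ K ∧
    ∀ x : K, ∃ y : K, (y : ℂ) = (starRingEnd ℂ) x ∧
      ∀ σ : K →+* ℂ, σ y = (starRingEnd ℂ) (σ x)

/-- complex conjugation as an automorphism over the rational numbers -/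
noncomputable def cconj : ℂ ≃ₐ[ℚ] ℂ := Complex.conjAe.restrictScalars ℚ

lemma cconj_apply (z : ℂ) : cconj z = (starRingEnd ℂ) z := rfl

/-- in a normal field the conjugation commutes with the embeddings at the elements of `K` -/
lemma commutes (K : IntermediateField ℚ ℂ) (hK : Kroneckerian K) (N : IntermediateField ℚ ℂ)
    [FiniteDimensional ℚ N] (τ : N ≃+* N)
    (hτ : ∀ x : N, ((τ x : N) : ℂ) = (starRingEnd ℂ) (x : ℂ)) (x : N) (hx : (x : ℂ) ∈ K)
    (σ : N →+* ℂ) : σ (τ x) = (starRingEnd ℂ) (σ x) := by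
  obtain ⟨hKa, hKc⟩ := hK
  set S : Set ℂ := (K : Set ℂ) ∪ (N : Set ℂ) with hS
  have hKS : ∀ s ∈ S, IsIntegral ℚ s ∧ ((minpoly ℚ s).map (algebraMap ℚ ℂ)).Splits := by
    rintro s (hs | hs)
    · refine ⟨?_, IsAlgClosed.splits _⟩
      have h1 : IsAlgebraic ℚ (⟨s, hs⟩ : K) := Algebra.IsAlgebraic.isAlgebraic _
      have h2 : IsAlgebraic ℚ (algebraMap K ℂ ⟨s, hs⟩) := h1.algebraMap
      exact h2.isIntegral
    · refine ⟨?_, IsAlgClosed.splits _⟩
      have h1 : IsAlgebraic ℚ (⟨s, hs⟩ : N) := Algebra.IsAlgebraic.isAlgebraic _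
      have h2 : IsAlgebraic ℚ (algebraMap N ℂ ⟨s, hs⟩) := h1.algebraMap
      exact h2.isIntegral
  have hNS : N ≤ adjoin ℚ S := fun z hz => subset_adjoin _ _ (Or.inr hz)
  have hKS' : K ≤ adjoin ℚ S := fun z hz => subset_adjoin _ _ (Or.inl hz)
  obtain ⟨φ, hφ⟩ := exists_algHom_adjoin_of_splits hKS (σ.toRatAlgHom : N →ₐ[ℚ] ℂ) hNS
  have hφN : ∀ z : N, φ ⟨(z : ℂ), hNS z.2⟩ = σ z := fun z => DFunLike.congr_fun hφ z
  obtain ⟨y, hy, hyc⟩ := hKc ⟨(x : ℂ), hx⟩
  have h1 := hyc ((φ.comp (inclusion hKS') : K →ₐ[ℚ] ℂ) : K →+* ℂ)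
  have e1 : ((φ.comp (inclusion hKS') : K →ₐ[ℚ] ℂ) : K →+* ℂ) ⟨(x : ℂ), hx⟩ = σ x := by
    rw [← hφN x]
    rfl
  have e2 : ((φ.comp (inclusion hKS') : K →ₐ[ℚ] ℂ) : K →+* ℂ) y = σ (τ x) := by
    rw [← hφN (τ x)]
    show φ ⟨(y : ℂ), hKS' y.2⟩ = φ _
    congr 1
    apply Subtype.ext
    show (y : ℂ) = ((τ x : N) : ℂ)
    rw [hy, hτ]
  rw [e1, e2] at h1
  exact h1

theorem prod_comp_equiv {N : Type} [Field N] [NumberField N] (τ : N ≃+* N) (x : N) :
    ∏ σ : N →+* ℂ, ‖σ (τ x)‖ = ∏ σ : N →+* ℂ, ‖σ x‖ := by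
  let E : (N →+* ℂ) ≃ (N →+* ℂ) :=
    { toFun := fun σ => σ.comp (τ : N →+* N)
      invFun := fun σ => σ.comp (τ.symm : N →+* N)
      left_inv := fun σ => by
        ext x
        simp
      right_inv := fun σ => by
        ext x
        simp }
  exact Equiv.prod_comp E fun σ => ‖σ x‖

theorem main (F K : IntermediateField ℚ ℂ) (hK : Kroneckerian K) (α : ℂ) (hα0 : α ≠ 0)
    (hα : IsAlgebraic ℚ α) (m : ℕ) (hm : 1 ≤ m) (hmD : m ≤ (minpoly F α).natDegree)
    (hlow : ∀ i, 1 ≤ i → i < m →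
      (((minpoly F α).coeff ((minpoly F α).natDegree - i) : F) : ℂ) ∈ K ∧
      (((minpoly F α).coeff i : F) : ℂ) = (((minpoly F α).coeff 0 : F) : ℂ) *
        (starRingEnd ℂ) (((minpoly F α).coeff ((minpoly F α).natDegree - i) : F) : ℂ))
    (hat : (((minpoly F α).coeff ((minpoly F α).natDegree - m) : F) : ℂ) ∈ K ∨
      (((minpoly F α).coeff m : F) : ℂ) / (((minpoly F α).coeff 0 : F) : ℂ) ∈ K)
    (hne : (((minpoly F α).coeff m : F) : ℂ) ≠ (((minpoly F α).coeff 0 : F) : ℂ) *
      (starRingEnd ℂ) (((minpoly F α).coeff ((minpoly F α).natDegree - m) : F) : ℂ))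
    (f : ℤ[X]) (hf : Irreducible f) (hfα : aeval α f = 0) :
    (Real.log ((1 + √5) / 2) / 2) / ((minpoly F α).natDegree : ℝ) ≤
      Real.log ((f.map (Int.castRingHom ℂ)).mahlerMeasure) / (f.natDegree : ℝ) := by
  classical
  set g : F[X] := minpoly F α with hg
  set D : ℕ := g.natDegree with hD
  have hαi : IsIntegral ℚ α := hα.isIntegral
  have hαF : IsIntegral F α := hαi.tower_top
  have hgm : g.Monic := minpoly.monic hαF
  set N : IntermediateField ℚ ℂ := adjoin ℚ ((minpoly ℚ α).rootSet ℂ) with hN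
  have hsplit : IsSplittingField ℚ N (minpoly ℚ α) :=
    adjoin_rootSet_isSplittingField (IsAlgClosed.splits _)
  have hfd : FiniteDimensional ℚ N := IsSplittingField.finiteDimensional N (minpoly ℚ α)
  have hnormal : Normal ℚ N := Normal.of_isSplittingField (minpoly ℚ α)
  have hnf : NumberField N := ⟨⟩
  let τ : N ≃+* N := (cconj.restrictNormal N : N ≃ₐ[ℚ] N).toRingEquiv
  have hτ : ∀ x : N, ((τ x : N) : ℂ) = (starRingEnd ℂ) (x : ℂ) := fun x =>
    AlgEquiv.restrictNormal_commutes cconj N x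
  -- the zeros
  set G : ℂ[X] := g.map (algebraMap F ℂ) with hG
  have hGm : G.Monic := hgm.map _
  have hsep : G.Separable := (minpoly.irreducible hαF).separable.map
  have hnodup : G.roots.Nodup := nodup_roots hsep
  have hroot : ∀ z ∈ G.roots, aeval z (minpoly ℚ α) = 0 := by
    intro z hz
    have h1 : aeval z g = 0 := by
      rw [mem_roots', IsRoot.def, hG, eval_map_algebraMap] at hz
      exact hz.2
    have h2 : g ∣ (minpoly ℚ α).map (algebraMap ℚ F) := minpoly.dvd_map_of_isScalarTower ℚ F α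
    obtain ⟨q, hq⟩ := h2
    have h3 : aeval z ((minpoly ℚ α).map (algebraMap ℚ F)) = 0 := by
      rw [hq, map_mul, h1, zero_mul]
    rwa [aeval_map_algebraMap] at h3
  have hmem : ∀ z ∈ G.roots, z ∈ N := by
    intro z hz
    apply subset_adjoin
    rw [mem_rootSet']
    refine ⟨?_, hroot z hz⟩
    exact (Polynomial.map_ne_zero (minpoly.ne_zero hαi))
  set J : Type := {z : ℂ // z ∈ G.roots.toFinset} with hJ
  let y : J → N := fun j => ⟨j.1, hmem j.1 (Multiset.mem_toFinset.1 j.2)⟩
  have hcard : Fintype.card J = D := by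
    have h0 : Fintype.card J = G.roots.toFinset.card := Fintype.card_coe _
    rw [h0, Multiset.toFinset_card_of_nodup hnodup]
    have h1 := splits_iff_card_roots.1 (IsAlgClosed.splits G)
    rw [h1, hG, hgm.natDegree_map]
  set P : N[X] := ∏ j, (X - C (y j)) with hP
  have hPG : P.map (algebraMap N ℂ) = G := by
    have h1 := (IsAlgClosed.splits G).eq_prod_roots
    rw [hGm.leadingCoeff, C_1, one_mul] at h1
    have h2 : G.roots = G.roots.toFinset.val := by
      rw [Multiset.toFinset_val, hnodup.dedup]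
    rw [hP, Polynomial.map_prod]
    have h3 : ∏ j : J, Polynomial.map (algebraMap N ℂ) (X - C (y j)) =
        ∏ j : J, (X - C (j.1 : ℂ)) := by
      refine Finset.prod_congr rfl fun j _ => ?_
      rw [Polynomial.map_sub, map_X, map_C]
      rfl
    rw [h3]
    have h4 : ∏ j : J, (X - C (j.1 : ℂ)) = ∏ z ∈ G.roots.toFinset, (X - C z) :=
      Finset.prod_coe_sort G.roots.toFinset fun z => X - C z
    rw [h4]
    conv_rhs => rw [h1]
    show (Multiset.map (fun z => X - C z) G.roots.toFinset.val).prod = _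
    rw [← h2]
  have hcoef : ∀ i, ((P.coeff i : N) : ℂ) = ((g.coeff i : F) : ℂ) := by
    intro i
    have h1 := congrArg (fun q : ℂ[X] => q.coeff i) hPG
    simp only [coeff_map, hG] at h1
    exact h1
  have hg0 : ((g.coeff 0 : F) : ℂ) ≠ 0 := by
    intro h
    have h1 : g.coeff 0 = 0 := Subtype.ext h
    have h2 := (minpoly.coeff_zero_eq_zero hαF).1 h1
    exact hα0 h2
  have hP0 : P.coeff 0 ≠ 0 := by
    intro h
    apply hg0
    rw [← hcoef, h]
    rfl
  have hy0 : ∀ j, y j ≠ 0 := by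
    intro j hj
    apply hP0
    rw [hP, Polynomial.coeff_zero_eq_eval_zero, eval_prod]
    apply Finset.prod_eq_zero (Finset.mem_univ j)
    rw [hj]
    simp
  have hcomm := commutes K hK N τ hτ
  -- symmetry below `m`
  have hs : ∀ σ : N →+* ℂ, ∀ i, 1 ≤ i → i < m → σ (P.coeff i) = σ (P.coeff 0) *
      (starRingEnd ℂ) (σ (P.coeff (Fintype.card J - i))) := by
    intro σ i hi1 hi2
    obtain ⟨h1, h2⟩ := hlow i hi1 hi2
    rw [hcard]
    have h3 : P.coeff i = P.coeff 0 * τ (P.coeff (D - i)) := by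
      apply Subtype.ext
      show ((P.coeff i : N) : ℂ) = ((P.coeff 0 : N) : ℂ) * ((τ (P.coeff (D - i)) : N) : ℂ)
      rw [hτ, hcoef, hcoef, hcoef]
      exact h2
    rw [h3, map_mul, hcomm (P.coeff (D - i)) (by rw [hcoef]; exact h1) σ]
  have hcoefτ : ∀ (w : FinitePlace N) (i : ℕ), w (τ (P.coeff i)) ≤ ∏ j, max (w (τ (y j))) 1 := by
    intro w i
    have h1 : P.map (τ : N →+* N) = ∏ j, (X - C (τ (y j))) := by
      rw [hP, Polynomial.map_prod]
      refine Finset.prod_congr rfl fun j _ => ?_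
      simp
    have h2 : τ (P.coeff i) = (∏ j, (X - C (τ (y j)))).coeff i := by
      rw [← h1, coeff_map]
      rfl
    rw [h2]
    exact coeff_le_prod _ _ w i
  have hone : ∀ (w : FinitePlace N) (z : J → N), 1 ≤ ∏ j, max (w (z j)) 1 := fun w z =>
    Finset.one_le_prod fun j _ => le_max_right _ _
  have key : (finrank ℚ N : ℝ) * (Real.log ((1 + √5) / 2) / 2) ≤
      ∑ j, Real.log (mulHeight₁ (y j)) := by
    rcases hat with hA | hB
    · -- the upper coefficient lies in `K`
      set e : N := P.coeff m - P.coeff 0 * τ (P.coeff (D - m)) with he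
      have he0 : e ≠ 0 := by
        intro h
        apply hne
        have h1 : ((e : N) : ℂ) = 0 := by rw [h]; rfl
        have h2 : ((e : N) : ℂ) = ((P.coeff m : N) : ℂ) - ((P.coeff 0 : N) : ℂ) *
          ((τ (P.coeff (D - m)) : N) : ℂ) := rfl
        rw [h2, hτ, hcoef, hcoef, hcoef] at h1
        exact sub_eq_zero.1 h1
      refine nf_bound y hy0 τ e he0 m hm (by rw [hcard]; exact hmD) hs ?_ ?_
      · refine Finset.prod_congr rfl fun σ _ => ?_
        rw [hcard, he, map_sub, map_mul, hcomm (P.coeff (D - m)) (by rw [hcoef]; exact hA) σ]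
      · intro w
        rw [he, sub_eq_add_neg]
        refine (FinitePlace.add_le w _ _).trans (max_le ?_ ?_)
        · calc w (P.coeff m) ≤ (∏ j, max (w (y j)) 1) * 1 := by
                rw [mul_one]
                exact coeff_le_prod _ _ w m
            _ ≤ _ := mul_le_mul_of_nonneg_left (hone w _)
                (le_trans zero_le_one (hone w _))
        · rw [map_neg_eq_map, map_mul]
          exact mul_le_mul (coeff_le_prod _ _ w 0) (hcoefτ w _) (apply_nonneg w _)
            (le_trans zero_le_one (hone w _))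
    · -- the quotient of the lower coefficient and the constant coefficient lies in `K`
      set e : N := τ (P.coeff m) - τ (P.coeff 0) * P.coeff (D - m) with he
      set x : N := P.coeff m / P.coeff 0 with hx
      have hxK : (x : ℂ) ∈ K := by
        have h1 : (x : ℂ) = ((P.coeff m : N) : ℂ) / ((P.coeff 0 : N) : ℂ) := by
          rw [hx]
          exact map_div₀ (algebraMap N ℂ) _ _
        rw [h1, hcoef, hcoef]
        exact hB
      have hPm : P.coeff m = P.coeff 0 * x := by
        rw [hx]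
        field_simp
      have he' : e = τ (P.coeff 0) * (τ x - P.coeff (D - m)) := by
        rw [he, hPm, map_mul]
        ring
      have hτP0 : τ (P.coeff 0) ≠ 0 := (map_ne_zero_iff τ τ.injective).2 hP0
      have hx0 : τ x - P.coeff (D - m) ≠ 0 := by
        intro h
        apply hne
        have h1 : τ x = P.coeff (D - m) := sub_eq_zero.1 h
        have h2 : (starRingEnd ℂ) (x : ℂ) = ((g.coeff (D - m) : F) : ℂ) := by
          rw [← hτ, h1, hcoef]
        have h3 : (x : ℂ) = (starRingEnd ℂ) ((g.coeff (D - m) : F) : ℂ) := by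
          rw [← h2, Complex.conj_conj]
        rw [← h3, ← hcoef, ← hcoef, hPm]
        rfl
      have he0 : e ≠ 0 := by
        rw [he']
        exact mul_ne_zero hτP0 hx0
      refine nf_bound y hy0 τ e he0 m hm (by rw [hcard]; exact hmD) hs ?_ ?_
      · have h1 : ∏ σ : N →+* ℂ, ‖σ e‖ = (∏ σ : N →+* ℂ, ‖σ (P.coeff 0)‖) *
            ∏ σ : N →+* ℂ, ‖σ (τ x - P.coeff (D - m))‖ := by
          rw [← prod_comp_equiv τ (P.coeff 0), ← Finset.prod_mul_distrib]
          refine Finset.prod_congr rfl fun σ _ => ?_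
          rw [he', map_mul, norm_mul]
        rw [h1, ← Finset.prod_mul_distrib]
        refine Finset.prod_congr rfl fun σ _ => ?_
        rw [hcard, ← norm_mul]
        have h2 : σ (P.coeff 0) * σ (τ x - P.coeff (D - m)) =
            σ (P.coeff 0) * ((starRingEnd ℂ) (σ x) - σ (P.coeff (D - m))) := by
          rw [map_sub, hcomm x hxK σ]
        have h3 : σ (P.coeff m) = σ (P.coeff 0) * σ x := by rw [hPm, map_mul]
        rw [h2, h3, ← mul_sub, norm_mul, norm_mul]
        congr 1
        rw [← Complex.norm_conj, map_sub, Complex.conj_conj]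
      · intro w
        rw [he, sub_eq_add_neg]
        refine (FinitePlace.add_le w _ _).trans (max_le ?_ ?_)
        · calc w (τ (P.coeff m)) ≤ 1 * ∏ j, max (w (τ (y j))) 1 := by
                rw [one_mul]
                exact hcoefτ w m
            _ ≤ _ := mul_le_mul_of_nonneg_right (hone w _)
                (le_trans zero_le_one (hone w _))
        · rw [map_neg_eq_map, map_mul, mul_comm]
          exact mul_le_mul (coeff_le_prod _ _ w _) (hcoefτ w _) (apply_nonneg w _)
            (le_trans zero_le_one (hone w _))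
  -- heights of the conjugates
  have hfd0 : 0 < f.natDegree := by
    rw [Nat.pos_iff_ne_zero]
    intro h
    rw [Polynomial.eq_C_of_natDegree_eq_zero h, aeval_C] at hfα
    have h1 : f.coeff 0 = 0 := by
      have : ((f.coeff 0 : ℤ) : ℂ) = 0 := by simpa using hfα
      exact_mod_cast this
    apply hf.ne_zero
    rw [Polynomial.eq_C_of_natDegree_eq_zero h, h1, C_0]
  have hfz : ∀ j, aeval (y j) f = 0 := by
    intro j
    have h1 : minpoly ℚ (j.1 : ℂ) = minpoly ℚ α :=
      (minpoly.eq_of_irreducible_of_monic (minpoly.irreducible hαi)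
        (hroot j.1 (Multiset.mem_toFinset.1 j.2)) (minpoly.monic hαi)).symm
    have h2 : minpoly ℚ α ∣ f.map (Int.castRingHom ℚ) := by
      apply minpoly.dvd
      have : aeval α (f.map (algebraMap ℤ ℚ)) = 0 := by rw [aeval_map_algebraMap, hfα]
      exact this
    have h3 : aeval (j.1 : ℂ) (f.map (Int.castRingHom ℚ)) = 0 := by
      obtain ⟨q, hq⟩ := h2
      rw [hq, map_mul, hroot j.1 (Multiset.mem_toFinset.1 j.2), zero_mul]
    have h4 : aeval (j.1 : ℂ) f = 0 := by
      have : aeval (j.1 : ℂ) (f.map (algebraMap ℤ ℚ)) = 0 := h3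
      rwa [aeval_map_algebraMap] at this
    have h5 : (algebraMap N ℂ) (aeval (y j) f) = aeval (j.1 : ℂ) f := by
      rw [← aeval_algebraMap_apply]
      rfl
    apply (algebraMap N ℂ).injective
    rw [h5, h4, map_zero]
  have hht : ∀ j, Real.log (mulHeight₁ (y j)) ≤ finrank ℚ N *
      (Real.log ((f.map (Int.castRingHom ℂ)).mahlerMeasure) / f.natDegree) := fun j =>
    Pool.Agent.W469.CV.MH.t N (y j) f hf hfd0 (hfz j)
  have hsum : ∑ j, Real.log (mulHeight₁ (y j)) ≤ D * (finrank ℚ N *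
      (Real.log ((f.map (Int.castRingHom ℂ)).mahlerMeasure) / f.natDegree)) := by
    refine (Finset.sum_le_sum fun j _ => hht j).trans (le_of_eq ?_)
    rw [Finset.sum_const, Finset.card_univ, hcard, nsmul_eq_mul]
  have hn : (0 : ℝ) < finrank ℚ N := by
    exact_mod_cast Module.finrank_pos (R := ℚ) (M := N)
  have hD0 : (0 : ℝ) < D := by
    exact_mod_cast minpoly.natDegree_pos hαF
  rw [div_le_iff₀ hD0]
  have h1 := key.trans hsum
  have h2 : (finrank ℚ N : ℝ) * (Real.log ((1 + √5) / 2) / 2) ≤ finrank ℚ N *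
      (Real.log ((f.map (Int.castRingHom ℂ)).mahlerMeasure) / f.natDegree * D) := by
    refine h1.trans (le_of_eq ?_)
    ring
  exact le_of_mul_le_mul_left h2 hn

end Pool.Agent.W5h36.RS
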